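import Pool.Agent.Helper61.NX.Pattern
import Pool.Agent.Helper57.NX3.Defs

/-!
# Project NX2, module C13: freezing the real positions on a window
-/

set_option autoImplicit false

open Finset Filter
open scoped BigOperators

namespace Pool.Agent.Helper57.NX3

noncomputable section

/-- the increment of `x ^ c` -/
private theorem rpow_sub_le {c : ℝ} (hc : 1 ≤ c) {a b : ℝ} (ha : 0 < a) (hab : a ≤ b) :
    b ^ c - a ^ c ≤ c * (b - a) * b ^ (c - 1) := by
  have hb : 0 < b := ha.trans_le hab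
  have h1 : 1 + c * (a / b - 1) ≤ (1 + (a / b - 1)) ^ c := by
    refine one_add_mul_self_le_rpow_one_add ?_ hc
    have : 0 ≤ a / b := by positivity
    linarith
  have h2 : (1 + (a / b - 1)) ^ c = a ^ c / b ^ c := by
    rw [add_sub_cancel, Real.div_rpow ha.le hb.le]
  rw [h2, le_div_iff₀ (by positivity)] at h1
  have h3 : b ^ c = b ^ (c - 1) * b := by
    rw [← Real.rpow_add_one hb.ne', sub_add_cancel]
  have h4 : (1 + c * (a / b - 1)) * b ^ c = b ^ c - c * (b - a) * b ^ (c - 1) := by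
    rw [h3]
    field_simp
    ring
  rw [h4] at h1
  linarith

theorem freeze_real (K : ℕ) (hK : 1 ≤ K) (c : ℝ) (hc : 1 ≤ c) (x0 : ℝ) (hx0 : 0 < x0) :
    ∃ D0 : ℝ, ∀ (D u T Q B : ℕ), D0 ≤ D → D ≤ u → u + T ≤ 2 * D → (T : ℝ) ≤ (D : ℝ) ^ (1 - x0) →
    1 ≤ Q → (D : ℝ) ^ (c - x0 / 2) / 4 ≤ B → ∃ v : ℕ, (v : ℝ) ≤ (2 * K * D : ℝ) ^ c + 3 ∧
    ∀ k ∈ Ico u (u + T), ∀ e < Q, (e + ⌊(Q : ℝ) * ((K * k : ℕ) : ℝ) ^ c⌋₊) / Q + 1 ≤ v ∧
      v + B / 2 ≤ (e + ⌊(Q : ℝ) * ((K * k : ℕ) : ℝ) ^ c⌋₊) / Q + 1 + B := by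
  have hK1 : (1 : ℝ) ≤ K := by exact_mod_cast hK
  rcases le_or_gt x0 1 with hx1 | hx1
  · -- main case
    have ht1 : Tendsto (fun D : ℝ => D ^ (x0 / 2)) atTop atTop := tendsto_rpow_atTop (by linarith)
    have ht2 : Tendsto (fun D : ℝ => D ^ (c - x0 / 2)) atTop atTop :=
      tendsto_rpow_atTop (by linarith)
    set M : ℝ := c * K * (2 * K) ^ (c - 1) with hM
    have hM0 : 0 ≤ M := by positivity
    obtain ⟨D1, hD1⟩ := (tendsto_atTop.mp ht1 (16 * M)).exists_forall_of_atTop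
    obtain ⟨D2, hD2⟩ := (tendsto_atTop.mp ht2 64).exists_forall_of_atTop
    refine ⟨max 1 (max D1 D2), fun D u T Q B hD hu huT hT hQ hB => ?_⟩
    have hDge : (1 : ℝ) ≤ D := (le_max_left _ _).trans hD
    have hD0 : (0 : ℝ) < D := by linarith
    have h1 := hD1 D ((le_max_left _ _).trans ((le_max_right _ _).trans hD))
    have h2 := hD2 D ((le_max_right _ _).trans ((le_max_right _ _).trans hD))
    have hu1 : (D : ℝ) ≤ u := by exact_mod_cast hu
    have hu0 : (0 : ℝ) < u := by linarith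
    have huT1 : (u : ℝ) + T ≤ 2 * D := by exact_mod_cast huT
    set X : ℝ := ((K : ℝ) * (u + T)) ^ c with hX
    have hX0 : 0 ≤ X := by positivity
    have hXle : X ≤ (2 * K * D : ℝ) ^ c := by
      refine Real.rpow_le_rpow (by positivity) ?_ (by linarith)
      nlinarith
    have hc1 : (⌈X⌉₊ : ℝ) < X + 1 := Nat.ceil_lt_add_one hX0
    have hc2 : X ≤ ⌈X⌉₊ := Nat.le_ceil X
    -- the increment
    have hinc : X - ((K : ℝ) * u) ^ c ≤ (D : ℝ) ^ (c - x0 / 2) / 16 := by
      have h3 := rpow_sub_le hc (a := (K : ℝ) * u) (b := (K : ℝ) * (u + T)) (by positivity)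
        (by
          have : (0 : ℝ) ≤ T := Nat.cast_nonneg T
          nlinarith)
      have h4 : c * ((K : ℝ) * (u + T) - (K : ℝ) * u) * ((K : ℝ) * (u + T)) ^ (c - 1) ≤
          c * (K * (D : ℝ) ^ (1 - x0)) * ((2 * K) * (D : ℝ)) ^ (c - 1) := by
        have h5 : (K : ℝ) * (u + T) - (K : ℝ) * u = K * T := by ring
        rw [h5]
        have h6 : ((K : ℝ) * (u + T)) ^ (c - 1) ≤ ((2 * K) * (D : ℝ)) ^ (c - 1) := by
          refine Real.rpow_le_rpow (by positivity) ?_ (by linarith)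
          nlinarith
        have h7 : c * ((K : ℝ) * T) ≤ c * (K * (D : ℝ) ^ (1 - x0)) := by
          refine mul_le_mul_of_nonneg_left ?_ (by linarith)
          exact mul_le_mul_of_nonneg_left hT (by linarith)
        exact mul_le_mul h7 h6 (by positivity) (by positivity)
      have h8 : c * (K * (D : ℝ) ^ (1 - x0)) * ((2 * K) * (D : ℝ)) ^ (c - 1) =
          M * (D : ℝ) ^ (c - x0) := by
        rw [Real.mul_rpow (by positivity) hD0.le, hM]
        have h9 : (D : ℝ) ^ (c - x0) = (D : ℝ) ^ (1 - x0) * (D : ℝ) ^ (c - 1) := by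
          rw [← Real.rpow_add hD0]
          congr 1
          ring
        rw [h9]
        ring
      have h10 : (D : ℝ) ^ (c - x0 / 2) = (D : ℝ) ^ (c - x0) * (D : ℝ) ^ (x0 / 2) := by
        rw [← Real.rpow_add hD0]
        congr 1
        ring
      rw [h10]
      have h11 : 0 < (D : ℝ) ^ (c - x0) := by positivity
      have h12 := mul_le_mul_of_nonneg_left h1 h11.le
      rw [← hX] at h3
      calc X - ((K : ℝ) * u) ^ c ≤ M * (D : ℝ) ^ (c - x0) := (h3.trans h4).trans h8.le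
        _ ≤ _ := by linarith
    refine ⟨⌈X⌉₊ + 2, ?_, fun k hk e he => ?_⟩
    · push_cast
      linarith
    · rw [mem_Ico] at hk
      have hku : (u : ℝ) ≤ k := by exact_mod_cast hk.1
      have hkT : (k : ℝ) ≤ u + T := by exact_mod_cast hk.2.le
      have hs := Helper57.NX.s_bounds (Q := Q) hQ (x := ((K * k : ℕ) : ℝ) ^ c) (by positivity) he
      set s : ℕ := (e + ⌊(Q : ℝ) * ((K * k : ℕ) : ℝ) ^ c⌋₊) / Q with hsdef
      have hk1 : ((K * k : ℕ) : ℝ) ^ c ≤ X := by
        refine Real.rpow_le_rpow (by positivity) ?_ (by linarith)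
        push_cast
        exact mul_le_mul_of_nonneg_left hkT (by linarith)
      have hk2 : ((K : ℝ) * u) ^ c ≤ ((K * k : ℕ) : ℝ) ^ c := by
        refine Real.rpow_le_rpow (by positivity) ?_ (by linarith)
        push_cast
        exact mul_le_mul_of_nonneg_left hku (by linarith)
      constructor
      · have h3 : (s : ℝ) + 1 ≤ ((⌈X⌉₊ + 2 : ℕ) : ℝ) := by
          push_cast
          linarith [hs.2]
        exact_mod_cast h3
      · have h3 : ((⌈X⌉₊ + 2 : ℕ) : ℝ) + ((B / 2 : ℕ) : ℝ) ≤ (s : ℝ) + 1 + B := by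
          have h4 : ((B / 2 : ℕ) : ℝ) ≤ (B : ℝ) / 2 := Nat.cast_div_le
          push_cast at h4 ⊢
          linarith [hs.1]
        exact_mod_cast h3
  · -- trivial case: the window is empty
    have ht1 : Tendsto (fun D : ℝ => D ^ (x0 - 1)) atTop atTop := tendsto_rpow_atTop (by linarith)
    obtain ⟨D1, hD1⟩ := (tendsto_atTop.mp ht1 2).exists_forall_of_atTop
    refine ⟨max 1 D1, fun D u T Q B hD hu huT hT hQ hB => ?_⟩
    have hDge : (1 : ℝ) ≤ D := (le_max_left _ _).trans hD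
    have hD0 : (0 : ℝ) < D := by linarith
    have h1 := hD1 D ((le_max_right _ _).trans hD)
    have h2 : (D : ℝ) ^ (1 - x0) * (D : ℝ) ^ (x0 - 1) = 1 := by
      rw [← Real.rpow_add hD0]
      norm_num
    have h3 : 0 < (D : ℝ) ^ (1 - x0) := by positivity
    have hT1 : (T : ℝ) < 1 := by nlinarith
    have hT0 : T = 0 := by
      have : T < 1 := by exact_mod_cast hT1
      omega
    refine ⟨0, ?_, fun k hk => ?_⟩
    · have : 0 ≤ (2 * K * D : ℝ) ^ c := by positivity
      push_cast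
      linarith
    · rw [hT0, add_zero, Ico_self] at hk
      exact absurd hk (Finset.notMem_empty k)

end

end Pool.Agent.Helper57.NX3
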